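import Mathlib
import Pool.Agent.W66.ST
import Pool.Agent.H473R4.Count

set_option autoImplicit false

/-!
# Decimal repunits: the asymptotic law for almost every amplitude, with the base 10 fixed

For real `β > 0` and a prime `p` let `W β p` be the `p`-rough part (the product, with multiplicity,
of the prime factors larger than `p`) of the largest integer below `β * 10 ^ p`, the integer formed
by the first `p` decimal digits of `β` (for `0 < β ≤ 1`, non-terminating expansion).  For
`β = 1 / 9 = 0.111...` this is the repunit `R_p` itself, for every prime `p ≠ 3`.  Let `N β n` be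
the number of primes `p ≤ n` with `W β p` prime.  We prove that for almost every `β > 0` the limit
of `N β n / log n` exists and equals `e ^ γ / log 10`.
-/

namespace Pool.Agent.Results.MP_adea1b_nt.DecimalLaw

open Filter Topology MeasureTheory

/-- The product, with multiplicity, of the prime factors of `m` that are larger than `p`. -/
def roughPart (p m : ℕ) : ℕ := (m.primeFactorsList.filter (fun r => p < r)).prod

/-- The `p`-rough part of the largest integer below `β * 10 ^ p`. -/
noncomputable def W (β : ℝ) (p : ℕ) : ℕ := roughPart p (⌈β * 10 ^ p⌉₊ - 1)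

/-- The number of primes `p ≤ n` for which `W β p` is prime. -/
noncomputable def N (β : ℝ) (n : ℕ) : ℕ :=
  ((Finset.range (n + 1)).filter (fun p => p.Prime ∧ (W β p).Prime)).card

/-- The special amplitude `1 / 9`. -/
lemma special {p : ℕ} (hp : p.Prime) (h3 : p ≠ 3) :
    W (1 / 9) p = ∑ i ∈ Finset.range p, 10 ^ i := by
  have h := Pool.Agent.W66S.repunit_special (b := 10) (by norm_num) hp (by
    intro h
    have h2 : p ∣ 3 := by
      have : p ∣ 3 ^ 2 := by simpa using h
      exact hp.dvd_of_dvd_pow this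
    exact h3 ((Nat.prime_dvd_prime_iff_eq hp Nat.prime_three).1 h2))
  have e1 : ⌈(1 / (((10 : ℕ) : ℝ) - 1)) * ((10 : ℕ) : ℝ) ^ p⌉₊ = ⌈(1 / 9 : ℝ) * 10 ^ p⌉₊ := by
    congr 1
    push_cast
    norm_num
  rw [e1] at h
  exact h

/-- A repunit that is prime has prime length. -/
lemma prime_index {n : ℕ} (h : (∑ i ∈ Finset.range n, 10 ^ i).Prime) : n.Prime := by
  have hn2 : 2 ≤ n := by
    rcases n with _ | _ | n
    · simp at h
      exact absurd h (by decide)
    · simp at h
      exact absurd h (by decide)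
    · omega
  by_contra hc
  obtain ⟨d, hd, hd1, hdn⟩ := Nat.exists_dvd_of_not_prime2 hn2 hc
  obtain ⟨m, rfl⟩ := hd
  have hdvd : (∑ i ∈ Finset.range d, 10 ^ i) ∣ ∑ i ∈ Finset.range (d * m), 10 ^ i := by
    have h1 := Nat.geomSum_eq (m := 10) (by norm_num) d
    have h2 := Nat.geomSum_eq (m := 10) (by norm_num) (d * m)
    have h3 : 10 ^ d - 1 ∣ 10 ^ (d * m) - 1 := by
      rw [pow_mul]
      simpa using Nat.sub_dvd_pow_sub_pow (10 ^ d) 1 m
    have h4 : ∀ k : ℕ, 9 ∣ 10 ^ k - 1 := fun k => by
      simpa using Nat.sub_dvd_pow_sub_pow 10 1 k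
    obtain ⟨c, hc⟩ := h3
    obtain ⟨x, hx⟩ := h4 d
    obtain ⟨y, hy⟩ := h4 (d * m)
    have h1' : ∑ i ∈ Finset.range d, 10 ^ i = x := by rw [h1, hx]; norm_num
    have h2' : ∑ i ∈ Finset.range (d * m), 10 ^ i = y := by rw [h2, hy]; norm_num
    rw [h1', h2']
    refine ⟨c, ?_⟩
    have : 9 * y = 9 * (x * c) := by rw [← hy, hc, hx]; ring
    omega
  rcases (Nat.dvd_prime h).1 hdvd with h1 | h1
  · have hlt : ∑ i ∈ Finset.range 1, 10 ^ i < ∑ i ∈ Finset.range d, 10 ^ i :=
      Finset.sum_lt_sum_of_subset (i := 1) (Finset.range_mono (by omega))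
        (Finset.mem_range.2 (by omega)) (by simp) (by norm_num) (fun _ _ _ => by positivity)
    simp only [Finset.range_one, Finset.sum_singleton, pow_zero] at hlt
    omega
  · have hlt : ∑ i ∈ Finset.range d, 10 ^ i < ∑ i ∈ Finset.range (d * m), 10 ^ i :=
      Finset.sum_lt_sum_of_subset (i := d) (Finset.range_mono hdn.le)
        (Finset.mem_range.2 hdn) (by simp) (by positivity) (fun _ _ _ => by positivity)
    omega

/-- The values at `β = 1 / 9` are the repunits, and for almost every amplitude, with the base `10`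
fixed, the asymptotic law holds. -/
theorem result :
    (∀ p : ℕ, p.Prime → p ≠ 3 → W (1 / 9) p = ∑ i ∈ Finset.range p, 10 ^ i) ∧
    ({n : ℕ | (∑ i ∈ Finset.range n, 10 ^ i).Prime}.Infinite ↔
      Tendsto (N (1 / 9)) atTop atTop) ∧
    (∀ᵐ β : ℝ, 0 < β → Tendsto (fun n : ℕ => (N β n : ℝ) / Real.log n) atTop
        (𝓝 (Real.exp Real.eulerMascheroniConstant / Real.log 10))) := by
  refine ⟨fun p hp h3 => special hp h3, ?_, ?_⟩
  · have e : {n : ℕ | (∑ i ∈ Finset.range n, 10 ^ i).Prime} =
        {p : ℕ | p.Prime ∧ (∑ i ∈ Finset.range p, 10 ^ i).Prime} := by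
      ext n
      exact ⟨fun h => ⟨prime_index h, h⟩, fun h => h.2⟩
    rw [e]
    refine Pool.Agent.H473R4.tendsto_iff (W (1 / 9)) _ 4 fun p hp hpb => ?_
    rw [special hp (by omega)]
  · have h := Pool.Agent.W66S.law_base (b := 10) (by norm_num)
    simp only [Nat.cast_ofNat] at h
    exact h

end Pool.Agent.Results.MP_adea1b_nt.DecimalLaw
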