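import Mathlib
import Pool.Agent.W66.LU
import Pool.Agent.H473R4.Count

set_option autoImplicit false

/-!
# Decimal repunits: the asymptotic law for almost every sequence of last digits

For a sequence `d 0, d 1, d 2, …` of decimal digits let `D d p` be the integer whose last `p`
decimal digits are `d (p - 1) … d 1 d 0`, and let `N d n` be the number of primes `p ≤ n` for which
the `p`-rough part (the product, with multiplicity, of the prime factors larger than `p`) of
`D d p` is prime.  If all digits are `1` then `D d p` is the repunit `R_p`, equal to its `p`-rough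
part for every prime `p ≠ 3`.  We prove that for almost every sequence of independent uniform
digits with `d 0` prime to `10` the limit of `N d n / log n` exists and equals `e ^ γ / log 10`.
-/

namespace Pool.Agent.Results.MP_adea1b_nt.LastDigitsLaw

open Filter Topology MeasureTheory

/-- The product, with multiplicity, of the prime factors of `m` that are larger than `p`. -/
def roughPart (p m : ℕ) : ℕ := (m.primeFactorsList.filter (fun r => p < r)).prod

/-- The integer with decimal digits `d (p - 1) … d 1 d 0`. -/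
def D (d : ℕ → Fin 10) (p : ℕ) : ℕ := ∑ i ∈ Finset.range p, (d i : ℕ) * 10 ^ i

/-- The number of primes `p ≤ n` for which the `p`-rough part of `D d p` is prime. -/
def N (d : ℕ → Fin 10) (n : ℕ) : ℕ :=
  ((Finset.range (n + 1)).filter (fun p => p.Prime ∧ (roughPart p (D d p)).Prime)).card

/-- The constant sequence `1`. -/
lemma special {p : ℕ} (hp : p.Prime) (h3 : p ≠ 3) :
    roughPart p (D (fun _ => 1) p) = ∑ i ∈ Finset.range p, 10 ^ i := by
  have h := Pool.Agent.W66L.rough_repunit (b := 10) (by norm_num) hp (by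
    intro h
    have h2 : p ∣ 3 := by
      have : p ∣ 3 ^ 2 := by simpa using h
      exact hp.dvd_of_dvd_pow this
    exact h3 ((Nat.prime_dvd_prime_iff_eq hp Nat.prime_three).1 h2))
  have e : D (fun _ => 1) p = ∑ i ∈ Finset.range p, 10 ^ i := by
    unfold D
    refine Finset.sum_congr rfl fun i _ => ?_
    simp
  rw [e]
  exact h

/-- A repunit that is prime has prime length. -/
lemma prime_index {n : ℕ} (h : (∑ i ∈ Finset.range n, 10 ^ i).Prime) : n.Prime := by
  have hn2 : 2 ≤ n := by
    rcases n with _ | _ | n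
    · simp at h
      exact absurd h (by decide)
    · simp at h
      exact absurd h (by decide)
    · omega
  by_contra hc
  obtain ⟨d, hd, hd1, hdn⟩ := Nat.exists_dvd_of_not_prime2 hn2 hc
  obtain ⟨m, rfl⟩ := hd
  have hdvd : (∑ i ∈ Finset.range d, 10 ^ i) ∣ ∑ i ∈ Finset.range (d * m), 10 ^ i := by
    have h1 := Nat.geomSum_eq (m := 10) (by norm_num) d
    have h2 := Nat.geomSum_eq (m := 10) (by norm_num) (d * m)
    have h3 : 10 ^ d - 1 ∣ 10 ^ (d * m) - 1 := by
      rw [pow_mul]
      simpa using Nat.sub_dvd_pow_sub_pow (10 ^ d) 1 m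
    have h4 : ∀ k : ℕ, 9 ∣ 10 ^ k - 1 := fun k => by
      simpa using Nat.sub_dvd_pow_sub_pow 10 1 k
    obtain ⟨c, hc⟩ := h3
    obtain ⟨x, hx⟩ := h4 d
    obtain ⟨y, hy⟩ := h4 (d * m)
    have h1' : ∑ i ∈ Finset.range d, 10 ^ i = x := by rw [h1, hx]; norm_num
    have h2' : ∑ i ∈ Finset.range (d * m), 10 ^ i = y := by rw [h2, hy]; norm_num
    rw [h1', h2']
    refine ⟨c, ?_⟩
    have : 9 * y = 9 * (x * c) := by rw [← hy, hc, hx]; ring
    omega
  rcases (Nat.dvd_prime h).1 hdvd with h1 | h1
  · have hlt : ∑ i ∈ Finset.range 1, 10 ^ i < ∑ i ∈ Finset.range d, 10 ^ i :=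
      Finset.sum_lt_sum_of_subset (i := 1) (Finset.range_mono (by omega))
        (Finset.mem_range.2 (by omega)) (by simp) (by norm_num) (fun _ _ _ => by positivity)
    simp only [Finset.range_one, Finset.sum_singleton, pow_zero] at hlt
    omega
  · have hlt : ∑ i ∈ Finset.range d, 10 ^ i < ∑ i ∈ Finset.range (d * m), 10 ^ i :=
      Finset.sum_lt_sum_of_subset (i := d) (Finset.range_mono hdn.le)
        (Finset.mem_range.2 hdn) (by simp) (by positivity) (fun _ _ _ => by positivity)
    omega

/-- All digits equal to `1` give the repunits, and for almost every sequence of digits the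
asymptotic law holds. -/
theorem result :
    (∀ p : ℕ, p.Prime → p ≠ 3 →
      roughPart p (D (fun _ => 1) p) = ∑ i ∈ Finset.range p, 10 ^ i) ∧
    ({n : ℕ | (∑ i ∈ Finset.range n, 10 ^ i).Prime}.Infinite ↔
      Tendsto (N (fun _ => 1)) atTop atTop) ∧
    (∀ᵐ d : ℕ → Fin 10 ∂(Measure.infinitePi
        (fun _ : ℕ => ProbabilityTheory.uniformOn (Set.univ : Set (Fin 10)))),
      (d 0 : ℕ).Coprime 10 → Tendsto (fun n : ℕ => (N d n : ℝ) / Real.log n) atTop
        (𝓝 (Real.exp Real.eulerMascheroniConstant / Real.log 10))) := by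
  refine ⟨fun p hp h3 => special hp h3, ?_, ?_⟩
  · have e : {n : ℕ | (∑ i ∈ Finset.range n, 10 ^ i).Prime} =
        {p : ℕ | p.Prime ∧ (∑ i ∈ Finset.range p, 10 ^ i).Prime} := by
      ext n
      exact ⟨fun h => ⟨prime_index h, h⟩, fun h => h.2⟩
    rw [e]
    refine Pool.Agent.H473R4.tendsto_iff (fun p => roughPart p (D (fun _ => 1) p)) _ 4
      fun p hp hpb => ?_
    rw [special hp (by omega)]
  · have h := Pool.Agent.W66L.law_all (b := 10) (by norm_num) (Pool.Agent.W66L.full_digits 10)
    have h' : ∀ᵐ d : ℕ → Fin 10 ∂(Measure.infinitePi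
        (fun _ : ℕ => ProbabilityTheory.uniformOn (Set.univ : Set (Fin 10)))),
      (Pool.Agent.W66L.dsum 10 1 d).Coprime 10 →
      Tendsto (fun n : ℕ => (Pool.Agent.W66L.cntR (fun p => Pool.Agent.W66L.dsum 10 p d) n : ℝ) /
        Real.log n) atTop
        (𝓝 (Real.exp Real.eulerMascheroniConstant / Real.log ((10 : ℕ) : ℝ))) := h
    filter_upwards [h'] with d hd hc
    have h1 : Pool.Agent.W66L.dsum 10 1 d = (d 0 : ℕ) := by
      unfold Pool.Agent.W66L.dsum
      simp
    rw [h1] at hd
    have h3 := hd hc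
    rw [Nat.cast_ofNat] at h3
    refine h3.congr fun n => ?_
    have h4 : Pool.Agent.W66L.cntR (fun p => Pool.Agent.W66L.dsum 10 p d) n = N d n := by
      unfold Pool.Agent.W66L.cntR N
      congr 1
      ext p
      simp only [Finset.mem_filter, Finset.mem_Icc, Finset.mem_range]
      constructor
      · rintro ⟨⟨h5, h6⟩, h7, h8⟩
        exact ⟨by omega, h7, h8⟩
      · rintro ⟨h6, h7, h8⟩
        exact ⟨⟨h7.pos, by omega⟩, h7, h8⟩
    rw [h4]

end Pool.Agent.Results.MP_adea1b_nt.LastDigitsLaw
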