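import Mathlib
import Pool.Agent.W66.CK
import Pool.Agent.H447R2.ML.Spec
import Pool.Agent.H473R4.Count

set_option autoImplicit false

/-!
# Repunits to almost every real base

For a function `A`, a real base `x > 1` and a prime `p` let `W A x p` be the `p`-rough part (the
product, with multiplicity, of the prime factors larger than `p`) of `⌊A x * (x ^ p - 1)⌋`, and let
`N A x n` be the number of primes `p ≤ n` with `W A x p` prime.  For `A x = 1 / (x - 1)` the numbers
`A x * (x ^ p - 1)` are the repunits `1 + x + ... + x ^ (p - 1)` to the real base `x`, and for every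
integer base `b ≥ 2` and every prime `p` not dividing `b - 1` the number `W A b p` is the repunit of
length `p` to the base `b` itself; for `b = 10` these are the decimal repunits.  We prove that for
every positive `C ^ 2` function `A` and almost every real base `x > 1` the limit of `N A x n / log n`
exists and equals `e ^ γ / log x`.
-/

namespace Pool.Agent.Results.MP_adea1b_nt.RealBaseLaw

open Filter Topology MeasureTheory

/-- The product, with multiplicity, of the prime factors of `m` that are larger than `p`. -/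
def roughPart (p m : ℕ) : ℕ := (m.primeFactorsList.filter (fun r => p < r)).prod

/-- The `p`-rough part of `⌊A x * (x ^ p - 1)⌋`. -/
noncomputable def W (A : ℝ → ℝ) (x : ℝ) (p : ℕ) : ℕ := roughPart p ⌊A x * (x ^ p - 1)⌋₊

/-- The number of primes `p ≤ n` for which `W A x p` is prime. -/
noncomputable def N (A : ℝ → ℝ) (x : ℝ) (n : ℕ) : ℕ :=
  ((Finset.range (n + 1)).filter (fun p => p.Prime ∧ (W A x p).Prime)).card

/-- At an integer base `b` with `A b = 1 / (b - 1)` the numbers are the repunits. -/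
lemma special {A : ℝ → ℝ} {b : ℕ} (hb : 2 ≤ b) (hA : A b = 1 / ((b : ℝ) - 1)) {p : ℕ}
    (hp : p.Prime) (hpd : ¬ p ∣ b - 1) : W A b p = ∑ i ∈ Finset.range p, b ^ i := by
  have hpd' : ¬ (p : ℤ) ∣ (b : ℤ) - 1 := by
    intro h
    apply hpd
    have h1 : ((p : ℕ) : ℤ) ∣ ((b - 1 : ℕ) : ℤ) := by
      rw [Nat.cast_sub (by omega)]
      simpa using h
    exact_mod_cast h1
  have h := Pool.Agent.H447R2.ML.rough_quot (a := (b : ℤ)) (b := 1) isCoprime_one_right (by omega)
    (by omega) hp hpd' (x := A b * ((b : ℝ) ^ p - 1)) (by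
      rw [hA]
      push_cast
      rw [one_pow]
      ring)
  simp only [one_pow, mul_one] at h
  have h4 : ((W A b p : ℕ) : ℤ) = ∑ i ∈ Finset.range p, (b : ℤ) ^ i := h
  exact_mod_cast h4

/-- A repunit that is prime has prime length. -/
lemma prime_index {n : ℕ} (h : (∑ i ∈ Finset.range n, 10 ^ i).Prime) : n.Prime := by
  have hn2 : 2 ≤ n := by
    rcases n with _ | _ | n
    · simp at h
      exact absurd h (by decide)
    · simp at h
      exact absurd h (by decide)
    · omega
  by_contra hc
  obtain ⟨d, hd, hd1, hdn⟩ := Nat.exists_dvd_of_not_prime2 hn2 hc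
  obtain ⟨m, rfl⟩ := hd
  have hdvd : (∑ i ∈ Finset.range d, 10 ^ i) ∣ ∑ i ∈ Finset.range (d * m), 10 ^ i := by
    have h1 := Nat.geomSum_eq (m := 10) (by norm_num) d
    have h2 := Nat.geomSum_eq (m := 10) (by norm_num) (d * m)
    have h3 : 10 ^ d - 1 ∣ 10 ^ (d * m) - 1 := by
      rw [pow_mul]
      simpa using Nat.sub_dvd_pow_sub_pow (10 ^ d) 1 m
    have h4 : ∀ k : ℕ, 9 ∣ 10 ^ k - 1 := fun k => by
      simpa using Nat.sub_dvd_pow_sub_pow 10 1 k
    obtain ⟨c, hc⟩ := h3
    obtain ⟨x, hx⟩ := h4 d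
    obtain ⟨y, hy⟩ := h4 (d * m)
    have h1' : ∑ i ∈ Finset.range d, 10 ^ i = x := by rw [h1, hx]; norm_num
    have h2' : ∑ i ∈ Finset.range (d * m), 10 ^ i = y := by rw [h2, hy]; norm_num
    rw [h1', h2']
    refine ⟨c, ?_⟩
    have : 9 * y = 9 * (x * c) := by rw [← hy, hc, hx]; ring
    omega
  rcases (Nat.dvd_prime h).1 hdvd with h1 | h1
  · have hlt : ∑ i ∈ Finset.range 1, 10 ^ i < ∑ i ∈ Finset.range d, 10 ^ i :=
      Finset.sum_lt_sum_of_subset (i := 1) (Finset.range_mono (by omega))
        (Finset.mem_range.2 (by omega)) (by simp) (by norm_num) (fun _ _ _ => by positivity)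
    simp only [Finset.range_one, Finset.sum_singleton, pow_zero] at hlt
    omega
  · have hlt : ∑ i ∈ Finset.range d, 10 ^ i < ∑ i ∈ Finset.range (d * m), 10 ^ i :=
      Finset.sum_lt_sum_of_subset (i := d) (Finset.range_mono hdn.le)
        (Finset.mem_range.2 hdn) (by simp) (by positivity) (fun _ _ _ => by positivity)
    omega

theorem result :
    -- with `A b = 1 / (b - 1)` the numbers at the integer base `b` are the repunits
    (∀ A : ℝ → ℝ, ∀ b : ℕ, 2 ≤ b → A b = 1 / ((b : ℝ) - 1) → ∀ p : ℕ, p.Prime → ¬ p ∣ b - 1 →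
      W A b p = ∑ i ∈ Finset.range p, b ^ i) ∧
    -- the problem in terms of the counting function at the base `10`
    (∀ A : ℝ → ℝ, A 10 = 1 / 9 →
      ({n : ℕ | (∑ i ∈ Finset.range n, 10 ^ i).Prime}.Infinite ↔ Tendsto (N A 10) atTop atTop)) ∧
    -- the asymptotic law along every curve, for almost every real base
    (∀ A : ℝ → ℝ, ContDiffOn ℝ 2 A (Set.Ioi 1) → (∀ x : ℝ, 1 < x → 0 < A x) →
      ∀ᵐ x : ℝ, 1 < x → Tendsto (fun n : ℕ => (N A x n : ℝ) / Real.log n) atTop
        (𝓝 (Real.exp Real.eulerMascheroniConstant / Real.log x))) := by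
  refine ⟨fun A b hb hA p hp hpd => special hb hA hp hpd, fun A hA => ?_, fun A hA hpos => ?_⟩
  · have e : {n : ℕ | (∑ i ∈ Finset.range n, 10 ^ i).Prime} =
        {p : ℕ | p.Prime ∧ (∑ i ∈ Finset.range p, 10 ^ i).Prime} := by
      ext n
      exact ⟨fun h => ⟨prime_index h, h⟩, fun h => h.2⟩
    rw [e]
    refine Pool.Agent.H473R4.tendsto_iff (W A 10) _ 4 fun p hp hpb => ?_
    have hA' : A ((10 : ℕ) : ℝ) = 1 / (((10 : ℕ) : ℝ) - 1) := by
      push_cast
      rw [hA]
      norm_num
    have h := special (b := 10) (by norm_num) hA' hp (by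
      intro h
      have h2 : p ∣ 3 := by
        have : p ∣ 3 ^ 2 := by simpa using h
        exact hp.dvd_of_dvd_pow this
      have := Nat.le_of_dvd (by norm_num) h2
      omega)
    simp only [Nat.cast_ofNat] at h
    rw [h]
  · have e : max 1 |(1 : ℝ)| = 1 := by norm_num
    have h := Pool.Agent.W66C.law_curve 1 (A := A) (by rw [e]; exact hA) (by rw [e]; exact hpos)
    rw [e] at h
    simp only [one_pow] at h
    exact h

end Pool.Agent.Results.MP_adea1b_nt.RealBaseLaw
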